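import Mathlib

/-!
# Equidistribution of antipalindromic numbers in base 3 modulo integers coprime to 6
-/

open Finset

namespace Pool.Agent.Lib.MP_f75418_nt

/-! ### Roots of unity -/

lemma norm_pow_sub_le {z : ℂ} (hz : ‖z‖ = 1) (k : ℕ) : ‖1 - z ^ k‖ ≤ k * ‖1 - z‖ := by
  induction k with
  | zero => simp
  | succ k ih =>
    have e : 1 - z ^ (k + 1) = (1 - z ^ k) + z ^ k * (1 - z) := by ring
    rw [e]
    refine (norm_add_le _ _).trans ?_
    rw [norm_mul, norm_pow, hz, one_pow, one_mul]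
    push_cast
    linarith

lemma norm_one_sub_ge {z : ℂ} {d : ℕ} (hd : 1 ≤ d) (hzd : z ^ d = 1) (hz1 : z ≠ 1) :
    1 / (d : ℝ) ≤ ‖1 - z‖ := by
  have hz : ‖z‖ = 1 := by
    have h : ‖z‖ ^ d = 1 := by rw [← norm_pow, hzd, norm_one]
    exact (pow_eq_one_iff_of_nonneg (norm_nonneg z) (by omega)).mp h
  have hgeom : ∑ k ∈ Finset.range d, z ^ k = 0 := by
    have h := mul_neg_geom_sum z d
    rw [hzd, sub_self] at h
    rcases mul_eq_zero.mp h with h' | h'
    · exact absurd (sub_eq_zero.mp h').symm hz1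
    · exact h'
  have hsum : (d : ℂ) = ∑ k ∈ Finset.range d, (1 - z ^ k) := by
    rw [Finset.sum_sub_distrib, hgeom]
    simp
  have h1 : (d : ℝ) ≤ ∑ k ∈ Finset.range d, (d : ℝ) * ‖1 - z‖ := by
    calc (d : ℝ) = ‖(d : ℂ)‖ := by simp
      _ = ‖∑ k ∈ Finset.range d, (1 - z ^ k)‖ := by rw [← hsum]
      _ ≤ ∑ k ∈ Finset.range d, ‖1 - z ^ k‖ := norm_sum_le _ _
      _ ≤ ∑ k ∈ Finset.range d, (d : ℝ) * ‖1 - z‖ := by
          refine Finset.sum_le_sum fun k hk => ?_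
          refine (norm_pow_sub_le hz k).trans ?_
          refine mul_le_mul_of_nonneg_right ?_ (norm_nonneg _)
          exact_mod_cast (Finset.mem_range.mp hk).le
  rw [Finset.sum_const, Finset.card_range, nsmul_eq_mul] at h1
  have hd0 : (0 : ℝ) < d := by exact_mod_cast hd
  rw [div_le_iff₀ hd0]
  have : (d : ℝ) * 1 ≤ d * (d * ‖1 - z‖) := by linarith
  have := le_of_mul_le_mul_left this hd0
  linarith

/-- The key bound: `|1 + z + z²| ≤ 3 - 1 / (2 d²)` for a `d`-th root of unity `z ≠ 1`. -/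
lemma norm_three_le {z : ℂ} {d : ℕ} (hd : 1 ≤ d) (hzd : z ^ d = 1) (hz1 : z ≠ 1) :
    ‖1 + z + z ^ 2‖ ≤ 3 - 1 / (2 * (d : ℝ) ^ 2) := by
  have hz : ‖z‖ = 1 := by
    have h : ‖z‖ ^ d = 1 := by rw [← norm_pow, hzd, norm_one]
    exact (pow_eq_one_iff_of_nonneg (norm_nonneg z) (by omega)).mp h
  have hnsq : z.re ^ 2 + z.im ^ 2 = 1 := by
    have h := Complex.sq_norm z
    rw [hz, Complex.normSq_apply] at h
    nlinarith
  have hge := norm_one_sub_ge hd hzd hz1
  have hd0 : (0 : ℝ) < d := by exact_mod_cast hd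
  -- `‖1 - z‖² = 2 (1 - re z)`
  have h1 : ‖1 - z‖ ^ 2 = 2 * (1 - z.re) := by
    rw [Complex.sq_norm, Complex.normSq_apply]
    simp only [Complex.sub_re, Complex.one_re, Complex.sub_im, Complex.one_im]
    nlinarith
  have h2 : (1 / (d : ℝ)) ^ 2 ≤ 2 * (1 - z.re) := by
    rw [← h1]
    exact pow_le_pow_left₀ (by positivity) hge 2
  -- `‖1 + z + z²‖ = |1 + 2 re z|`
  have h3 : ‖1 + z + z ^ 2‖ ^ 2 = (1 + 2 * z.re) ^ 2 := by
    rw [Complex.sq_norm, Complex.normSq_apply]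
    have e1 : (1 + z + z ^ 2).re = 1 + z.re + (z.re ^ 2 - z.im ^ 2) := by
      simp [pow_two]
    have e2 : (1 + z + z ^ 2).im = z.im + 2 * z.re * z.im := by
      simp [pow_two]; ring
    rw [e1, e2]
    have : z.im ^ 2 = 1 - z.re ^ 2 := by linarith
    have e3 : (1 + z.re + (z.re ^ 2 - z.im ^ 2)) * (1 + z.re + (z.re ^ 2 - z.im ^ 2)) +
      (z.im + 2 * z.re * z.im) * (z.im + 2 * z.re * z.im) =
      (1 + z.re + (z.re ^ 2 - z.im ^ 2)) ^ 2 + z.im ^ 2 * (1 + 2 * z.re) ^ 2 := by ring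
    rw [e3, this]; ring
  have h4 : ‖1 + z + z ^ 2‖ = |1 + 2 * z.re| := by
    rw [← abs_norm]
    exact (sq_eq_sq_iff_abs_eq_abs _ _).mp h3
  have hre1 : -1 ≤ z.re := by nlinarith [sq_nonneg z.im]
  have hre2 : z.re ≤ 1 := by nlinarith [sq_nonneg z.im]
  rw [h4]
  have h5 : |1 + 2 * z.re| ≤ 3 - (1 - z.re) := by
    rw [abs_le]; constructor <;> linarith
  have h6 : 1 / (2 * (d : ℝ) ^ 2) = (1 / (d : ℝ)) ^ 2 / 2 := by
    field_simp
  rw [h6]
  linarith

/-- A product of numbers in `[0,1]` in which consecutive products are at most `r`. -/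
lemma prod_le_pow_half (r : ℝ) (hr0 : 0 ≤ r) (n : ℕ) : ∀ q : ℕ → ℝ, (∀ j, 0 ≤ q j) →
    (∀ j, q j ≤ 1) → (∀ j, j + 1 < n → q j * q (j + 1) ≤ r) →
    ∏ j ∈ Finset.range n, q j ≤ r ^ (n / 2) := by
  induction n using Nat.twoStepInduction with
  | zero => intro q _ _ _; simp
  | one => intro q _ h1 _; simpa using h1 0
  | more n ih _ =>
    intro q h0 h1 h2
    rw [Finset.prod_range_succ', Finset.prod_range_succ']
    have h3 := ih (fun j => q (j + 2)) (fun j => h0 _) (fun j => h1 _)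
      (fun j hj => h2 (j + 2) (by omega))
    have h4 := h2 0 (by omega)
    have h5 : (n + 2) / 2 = n / 2 + 1 := by omega
    rw [h5, pow_succ, mul_assoc]
    have h6 : q (0 + 1) * q 0 ≤ r := by rw [mul_comm]; simpa using h4
    have h7 : 0 ≤ q (0 + 1) * q 0 := mul_nonneg (h0 _) (h0 _)
    exact mul_le_mul h3 h6 h7 (pow_nonneg hr0 _)

/-! ### The numbers -/

/-- The antipalindromic number with `2 n + 1` digits whose lower digits are `a 0, ..., a (n-1)`. -/
def val (n : ℕ) (a : Fin n → Fin 3) : ℕ :=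
  ∑ j : Fin n, ((a j : ℕ) * 3 ^ (j : ℕ) + (2 - (a j : ℕ)) * 3 ^ (2 * n - j)) + 3 ^ n

/-- The difference `c_j = 3^j - 3^(2n-j)` modulo `d`. -/
def cf (n d j : ℕ) : ZMod d := 3 ^ j - 3 ^ (2 * n - j)

lemma val_cast (n d : ℕ) (a : Fin n → Fin 3) :
    ((val n a : ℕ) : ZMod d) =
      ∑ j : Fin n, (((a j : ℕ) : ZMod d) * cf n d j + 2 * 3 ^ (2 * n - j)) + 3 ^ n := by
  unfold val cf
  push_cast
  congr 1
  refine Finset.sum_congr rfl fun j _ => ?_
  have h : ((2 - (a j : ℕ) : ℕ) : ZMod d) = 2 - ((a j : ℕ) : ZMod d) := by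
    rw [Nat.cast_sub (by have := (a j).2; omega)]
    push_cast; rfl
  rw [h]; ring

/-- Two consecutive coefficients cannot both be killed by `h ≠ 0`. -/
lemma cf_consecutive {n d : ℕ} (hd : Nat.Coprime d 6) (h : ZMod d) (hh : h ≠ 0) {j : ℕ}
    (hj : j + 1 < n) : h * cf n d j ≠ 0 ∨ h * cf n d (j + 1) ≠ 0 := by
  by_contra hcon
  push Not at hcon
  obtain ⟨h1, h2⟩ := hcon
  have hd3 : Nat.Coprime 3 d := by
    have : Nat.Coprime d 3 := Nat.Coprime.coprime_dvd_right (by norm_num) hd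
    exact this.symm
  have hd2 : Nat.Coprime 2 d := by
    have : Nat.Coprime d 2 := Nat.Coprime.coprime_dvd_right (by norm_num) hd
    exact this.symm
  have u3 : IsUnit ((3 : ℕ) : ZMod d) := (ZMod.isUnit_iff_coprime 3 d).mpr hd3
  have u2 : IsUnit ((2 : ℕ) : ZMod d) := (ZMod.isUnit_iff_coprime 2 d).mpr hd2
  push_cast at u3 u2
  -- c_{j+1} = 3 * 3^j - 3^(2n-j-1), c_j = 3^j - 3 * 3^(2n-j-1)
  have e1 : cf n d j = 3 ^ j - 3 * 3 ^ (2 * n - j - 1) := by
    unfold cf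
    congr 1
    rw [← pow_succ']
    congr 1; omega
  have e2 : cf n d (j + 1) = 3 * 3 ^ j - 3 ^ (2 * n - j - 1) := by
    unfold cf
    rw [pow_succ']
    congr 2
  rw [e1] at h1
  rw [e2] at h2
  -- 3 * h2 - h1 : 8 * 3^j * h = 0
  have h3 : h * (2 ^ 3 * 3 ^ j) = 0 := by linear_combination 3 * h2 - h1
  have u : IsUnit ((2 : ZMod d) ^ 3 * 3 ^ j) := (u2.pow 3).mul (u3.pow j)
  exact hh ((u.mul_left_eq_zero).mp h3)

lemma addChar_sum {ι : Type*} {d : ℕ} (ψ : AddChar (ZMod d) ℂ) (s : Finset ι) (f : ι → ZMod d) :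
    ψ (∑ i ∈ s, f i) = ∏ i ∈ s, ψ (f i) := by
  classical
  induction s using Finset.induction_on with
  | empty => simp
  | insert a s ha ih => rw [Finset.sum_insert ha, Finset.prod_insert ha, AddChar.map_add_eq_mul, ih]

/-- The character sum over all digit strings. -/
lemma charsum_bound {n d : ℕ} [NeZero d] (hd : Nat.Coprime d 6) (h : ZMod d) (hh : h ≠ 0) :
    ‖∑ a : Fin n → Fin 3, ZMod.stdAddChar (N := d) (h * ((val n a : ℕ) : ZMod d))‖ ≤
      3 ^ n * (1 - 1 / (6 * (d : ℝ) ^ 2)) ^ (n / 2) := by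
  set ψ : AddChar (ZMod d) ℂ := ZMod.stdAddChar (N := d) with hψ
  have hd1 : 1 ≤ d := Nat.one_le_iff_ne_zero.mpr (NeZero.ne d)
  have hd0 : (1 : ℝ) ≤ d := by exact_mod_cast hd1
  have hnorm : ∀ x, ‖ψ x‖ = 1 := by
    intro x
    rw [hψ, ZMod.stdAddChar_apply]
    exact Circle.norm_coe _
  -- product formula
  have h1 : ∑ a : Fin n → Fin 3, ψ (h * ((val n a : ℕ) : ZMod d)) =
      ψ (h * 3 ^ n) * ∏ j : Fin n, ∑ t : Fin 3,
        ψ (h * (((t : ℕ) : ZMod d) * cf n d j + 2 * 3 ^ (2 * n - j))) := by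
    rw [Finset.prod_univ_sum, Finset.mul_sum]
    rw [Fintype.piFinset_univ]
    refine Finset.sum_congr rfl fun a _ => ?_
    rw [val_cast, mul_add, AddChar.map_add_eq_mul, mul_comm, Finset.mul_sum,
      addChar_sum]
  rw [h1, norm_mul, hnorm, one_mul, norm_prod]
  -- each factor
  have h2 : ∀ j : Fin n, ‖∑ t : Fin 3,
        ψ (h * (((t : ℕ) : ZMod d) * cf n d j + 2 * 3 ^ (2 * n - j)))‖ =
        ‖1 + ψ (h * cf n d j) + ψ (h * cf n d j) ^ 2‖ := by
    intro j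
    have e : ∑ t : Fin 3, ψ (h * (((t : ℕ) : ZMod d) * cf n d j + 2 * 3 ^ (2 * n - j))) =
        ψ (h * (2 * 3 ^ (2 * n - j))) * (1 + ψ (h * cf n d j) + ψ (h * cf n d j) ^ 2) := by
      rw [Fin.sum_univ_three, ← AddChar.map_nsmul_eq_pow]
      have e0 : h * ((((0 : Fin 3) : ℕ) : ZMod d) * cf n d j + 2 * 3 ^ (2 * n - j)) =
        h * (2 * 3 ^ (2 * n - j)) := by simp
      have e1 : h * ((((1 : Fin 3) : ℕ) : ZMod d) * cf n d j + 2 * 3 ^ (2 * n - j)) =
        h * (2 * 3 ^ (2 * n - j)) + h * cf n d j := by simp; ring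
      have e2 : h * ((((2 : Fin 3) : ℕ) : ZMod d) * cf n d j + 2 * 3 ^ (2 * n - j)) =
        h * (2 * 3 ^ (2 * n - j)) + 2 • (h * cf n d j) := by simp; ring
      rw [e0, e1, e2, AddChar.map_add_eq_mul, AddChar.map_add_eq_mul]
      ring
    rw [e, norm_mul, hnorm, one_mul]
  simp_rw [h2]
  -- normalised factors
  set q : ℕ → ℝ := fun j => ‖1 + ψ (h * cf n d j) + ψ (h * cf n d j) ^ 2‖ / 3 with hq
  have hq0 : ∀ j, 0 ≤ q j := fun j => by positivity
  have hq1 : ∀ j, q j ≤ 1 := by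
    intro j
    rw [hq]
    simp only
    rw [div_le_one (by norm_num)]
    refine (norm_add_le _ _).trans ?_
    have := norm_add_le (1 : ℂ) (ψ (h * cf n d j))
    rw [norm_pow, hnorm, norm_one] at *
    norm_num
    linarith
  set r : ℝ := 1 - 1 / (6 * (d : ℝ) ^ 2) with hr
  have hr0 : 0 ≤ r := by
    rw [hr, sub_nonneg, div_le_one (by positivity)]
    nlinarith
  have hqr : ∀ j, h * cf n d j ≠ 0 → q j ≤ r := by
    intro j hj
    have hz1 : ψ (h * cf n d j) ≠ 1 := by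
      intro h3
      apply hj
      have := ZMod.injective_stdAddChar (N := d)
      apply this
      rw [AddChar.map_zero_eq_one]
      exact h3
    have hzd : ψ (h * cf n d j) ^ d = 1 := by
      rw [← AddChar.map_nsmul_eq_pow]
      simp
    have h3 := norm_three_le hd1 hzd hz1
    rw [hq, hr]
    simp only
    rw [div_le_iff₀ (by norm_num)]
    have : (1 - 1 / (6 * (d : ℝ) ^ 2)) * 3 = 3 - 1 / (2 * (d : ℝ) ^ 2) := by
      field_simp
      ring
    rw [this]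
    exact h3
  have hpair : ∀ j, j + 1 < n → q j * q (j + 1) ≤ r := by
    intro j hj
    rcases cf_consecutive hd h hh hj with h3 | h3
    · calc q j * q (j + 1) ≤ r * 1 := mul_le_mul (hqr j h3) (hq1 _) (hq0 _) hr0
        _ = r := mul_one r
    · calc q j * q (j + 1) ≤ 1 * r := mul_le_mul (hq1 _) (hqr _ h3) (hq0 _) zero_le_one
        _ = r := one_mul r
  have hmain := prod_le_pow_half r hr0 n q hq0 hq1 hpair
  have h4 : ∏ j : Fin n, ‖1 + ψ (h * cf n d j) + ψ (h * cf n d j) ^ 2‖ =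
      3 ^ n * ∏ j ∈ Finset.range n, q j := by
    rw [← Fin.prod_univ_eq_prod_range (fun j => q j) n]
    have h5 : (3 : ℝ) ^ n = ∏ _j : Fin n, (3 : ℝ) := by simp
    rw [h5, ← Finset.prod_mul_distrib]
    refine Finset.prod_congr rfl fun j _ => ?_
    rw [hq]
    simp only
    ring
  rw [h4]
  exact mul_le_mul_of_nonneg_left hmain (by positivity)

/-- **Equidistribution** modulo `d` coprime to `6`. -/
theorem equidist {n d : ℕ} (hd1 : 1 ≤ d) (hd : Nat.Coprime d 6) :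
    |(((Finset.univ : Finset (Fin n → Fin 3)).filter (fun a => d ∣ val n a)).card : ℝ) -
      3 ^ n / d| ≤ 3 ^ n * (1 - 1 / (6 * (d : ℝ) ^ 2)) ^ (n / 2) := by
  have : NeZero d := ⟨by omega⟩
  set ψ : AddChar (ZMod d) ℂ := ZMod.stdAddChar (N := d) with hψ
  have hprim := ZMod.isPrimitive_stdAddChar d
  set A : ℕ := ((Finset.univ : Finset (Fin n → Fin 3)).filter (fun a => d ∣ val n a)).card with hA
  have hd0 : (0 : ℝ) < d := by exact_mod_cast hd1
  have hd0' : (1 : ℝ) ≤ d := by exact_mod_cast hd1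
  -- `d * A = ∑ h, ∑ a, ψ (h val a)`
  have h1 : (d : ℂ) * A = ∑ h : ZMod d, ∑ a : Fin n → Fin 3, ψ (h * ((val n a : ℕ) : ZMod d)) := by
    rw [Finset.sum_comm]
    have h2 : ∀ a : Fin n → Fin 3, ∑ h : ZMod d, ψ (h * ((val n a : ℕ) : ZMod d)) =
        if d ∣ val n a then (d : ℂ) else 0 := by
      intro a
      have h3 := AddChar.sum_mulShift ((val n a : ℕ) : ZMod d) hprim
      rw [← hψ] at h3
      rw [h3, ZMod.card]
      simp only [ZMod.natCast_eq_zero_iff]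
      split_ifs <;> simp
    simp_rw [h2]
    rw [← Finset.sum_filter, Finset.sum_const, nsmul_eq_mul, hA]
    ring
  have h2 : (d : ℂ) * A - 3 ^ n = ∑ h ∈ (Finset.univ : Finset (ZMod d)).erase 0,
      ∑ a : Fin n → Fin 3, ψ (h * ((val n a : ℕ) : ZMod d)) := by
    rw [h1, ← Finset.sum_erase_add _ _ (Finset.mem_univ (0 : ZMod d))]
    simp
  have h3 : ‖(d : ℂ) * A - 3 ^ n‖ ≤ d * (3 ^ n * (1 - 1 / (6 * (d : ℝ) ^ 2)) ^ (n / 2)) := by
    rw [h2]
    refine (norm_sum_le _ _).trans ?_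
    refine (Finset.sum_le_sum (fun h hh =>
      charsum_bound (n := n) hd h (Finset.ne_of_mem_erase hh))).trans ?_
    rw [Finset.sum_const, nsmul_eq_mul]
    refine mul_le_mul_of_nonneg_right ?_ ?_
    · have : ((Finset.univ : Finset (ZMod d)).erase 0).card ≤ d := by
        refine (Finset.card_erase_le).trans ?_
        rw [Finset.card_univ, ZMod.card]
      exact_mod_cast this
    · have hr0 : 0 ≤ 1 - 1 / (6 * (d : ℝ) ^ 2) := by
        rw [sub_nonneg, div_le_one (by positivity)]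
        nlinarith
      positivity
  have h4 : ‖(d : ℂ) * A - 3 ^ n‖ = |(d : ℝ) * A - 3 ^ n| := by
    rw [← Real.norm_eq_abs, ← Complex.norm_real]
    push_cast
    rfl
  rw [h4] at h3
  have h5 : |(A : ℝ) - 3 ^ n / d| = |(d : ℝ) * A - 3 ^ n| / d := by
    rw [← abs_of_pos hd0, ← abs_div, abs_of_pos hd0]
    congr 1
    field_simp
  rw [h5, div_le_iff₀ hd0]
  linarith

end Pool.Agent.Lib.MP_f75418_nt
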