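import Mathlib
import Pool.Agent.Lib.MP_f75418_nt.Equidist

/-!
# Antipalindromic numbers with an odd number of base 3 digits
-/

open Finset

namespace Pool.Agent.Lib.MP_f75418_nt

/-- `m` is antipalindromic in base `3`. -/
def IsAntipal (m : ℕ) : Prop :=
  (Nat.digits 3 m).reverse = (Nat.digits 3 m).map (fun d => 2 - d)

lemma ofDigits_ofFn (b : ℕ) : ∀ (N : ℕ) (f : Fin N → ℕ),
    Nat.ofDigits b (List.ofFn f) = ∑ i : Fin N, f i * b ^ (i : ℕ) := by
  intro N
  induction N with
  | zero => intro f; simp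
  | succ N ih =>
    intro f
    rw [List.ofFn_succ, Nat.ofDigits_cons, ih, Fin.sum_univ_succ, Finset.mul_sum]
    simp only [Fin.val_zero, pow_zero, mul_one, Fin.val_succ]
    congr 1
    refine Finset.sum_congr rfl fun i _ => ?_
    rw [pow_succ]; ring

lemma sum_range_fold (n : ℕ) (g : ℕ → ℕ) : ∑ i ∈ Finset.range (2 * n + 1), g i =
    ∑ j ∈ Finset.range n, (g j + g (2 * n - j)) + g n := by
  have h1 : 2 * n + 1 = (n + 1) + n := by ring
  rw [h1, Finset.sum_range_add, Finset.sum_range_succ, Finset.sum_add_distrib]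
  have h2 : ∑ j ∈ Finset.range n, g (n + 1 + j) = ∑ j ∈ Finset.range n, g (2 * n - j) := by
    rw [← Finset.sum_range_reflect]
    refine Finset.sum_congr rfl fun j hj => ?_
    have := Finset.mem_range.mp hj
    congr 1; omega
  rw [h2]; ring

lemma sum_fin_fold (n : ℕ) (g : ℕ → ℕ) : ∑ i : Fin (2 * n + 1), g i =
    ∑ j : Fin n, (g j + g (2 * n - j)) + g n := by
  rw [Fin.sum_univ_eq_sum_range (fun i => g i), sum_range_fold,
    Fin.sum_univ_eq_sum_range (fun j => g j + g (2 * n - j))]

/-- The number of digits of `m` in `[3^(2n), 3^(2n+1))`. -/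
lemma length_digits {n m : ℕ} (h1 : 3 ^ (2 * n) ≤ m) (h2 : m < 3 ^ (2 * n + 1)) :
    (Nat.digits 3 m).length = 2 * n + 1 := by
  have h3 : m ≠ 0 := by
    have : 0 < 3 ^ (2 * n) := by positivity
    omega
  apply le_antisymm
  · exact (Nat.digits_length_le_iff (by norm_num) m).mpr h2
  · by_contra hcon
    push Not at hcon
    have := (Nat.digits_length_le_iff (b := 3) (k := 2 * n) (by norm_num) m).mp (by omega)
    omega

/-- Every antipalindromic number with `2n+1` digits is a value of `val`. -/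
lemma exists_val {n m : ℕ} (h1 : 3 ^ (2 * n) ≤ m) (h2 : m < 3 ^ (2 * n + 1)) (hm : IsAntipal m) :
    ∃ a : Fin n → Fin 3, val n a = m := by
  have hlen := length_digits h1 h2
  obtain ⟨L, hL⟩ : ∃ L, L = Nat.digits 3 m := ⟨_, rfl⟩
  rw [← hL] at hlen
  have hlt : ∀ i (hi : i < L.length), L[i] < 3 := by
    intro i hi
    have : L[i] ∈ Nat.digits 3 m := by rw [← hL]; exact List.getElem_mem hi
    exact Nat.digits_lt_base (by norm_num) this
  have hanti : ∀ i (hi : i < L.length), L[L.length - 1 - i]'(by omega) = 2 - L[i] := by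
    intro i hi
    unfold IsAntipal at hm
    rw [← hL] at hm
    have h3 : (L.reverse)[i]? = (L.map (fun d => 2 - d))[i]? := by rw [hm]
    rw [List.getElem?_reverse hi, List.getElem?_map, List.getElem?_eq_getElem (by omega),
      List.getElem?_eq_getElem hi] at h3
    simpa using h3
  have hsum : m = ∑ i : Fin (2 * n + 1), L[i]'(by omega) * 3 ^ (i : ℕ) := by
    have h4 : m = Nat.ofDigits 3 L := by rw [hL, Nat.ofDigits_digits]
    have h5 : L = List.ofFn (fun i : Fin (2 * n + 1) => L[i]'(by omega)) := by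
      apply List.ext_getElem
      · simp [hlen]
      · intro i h6 h7
        rw [List.getElem_ofFn]
        rfl
    conv_lhs => rw [h4, h5]
    rw [ofDigits_ofFn]
  have hg : ∀ i : Fin (2 * n + 1), L[i]'(by omega) * 3 ^ (i : ℕ) =
      (fun i : ℕ => (L.getD i 0) * 3 ^ i) i := by
    intro i
    simp only
    rw [List.getD_eq_getElem _ _ (by omega)]
    rfl
  rw [Finset.sum_congr rfl (fun i _ => hg i), sum_fin_fold n (fun i : ℕ => (L.getD i 0) * 3 ^ i)] at hsum
  refine ⟨fun j => ⟨L[(j : ℕ)]'(by omega), hlt _ _⟩, ?_⟩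
  rw [hsum]
  unfold val
  simp only
  congr 1
  · refine Finset.sum_congr rfl fun j _ => ?_
    have hj := j.2
    have e1 : L.getD (j : ℕ) 0 = L[(j : ℕ)]'(by omega) := List.getD_eq_getElem _ _ (by omega)
    have e2 : L.getD (2 * n - (j : ℕ)) 0 = L[2 * n - (j : ℕ)]'(by omega) :=
      List.getD_eq_getElem _ _ (by omega)
    have h6 := hanti j (by omega)
    have h7 : L[2 * n - (j : ℕ)]'(by omega) = 2 - L[(j : ℕ)]'(by omega) := by
      rw [← h6]
      congr 1; omega
    rw [e1, e2, h7]
  · have e1 : L.getD n 0 = L[n]'(by omega) := List.getD_eq_getElem _ _ (by omega)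
    have h6 := hanti n (by omega)
    have h8 := hlt n (by omega)
    have h7 : L[L.length - 1 - n]'(by omega) = L[n]'(by omega) := by
      congr 1; omega
    have h9 : L[n]'(by omega) = 1 := by omega
    rw [e1, h9]; simp

/-- The digit function of `val n a`. -/
def dig (n : ℕ) (a : Fin n → Fin 3) (i : ℕ) : ℕ :=
  if h : i < n then (a ⟨i, h⟩ : ℕ) else if i = n then 1 else
    if h : 2 * n - i < n then 2 - (a ⟨2 * n - i, h⟩ : ℕ) else 0

lemma dig_lt (n : ℕ) (a : Fin n → Fin 3) (i : ℕ) : dig n a i < 3 := by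
  unfold dig
  split_ifs
  · exact (a _).2
  · norm_num
  · omega
  · norm_num

lemma val_eq_ofDigits (n : ℕ) (a : Fin n → Fin 3) :
    val n a = Nat.ofDigits 3 (List.ofFn (fun i : Fin (2 * n + 1) => dig n a i)) := by
  rw [ofDigits_ofFn, sum_fin_fold n (fun i : ℕ => dig n a i * 3 ^ i)]
  unfold val
  congr 1
  · refine Finset.sum_congr rfl fun j _ => ?_
    have hj := j.2
    have e1 : dig n a j = a j := by
      unfold dig
      rw [dif_pos hj]
    have e2 : dig n a (2 * n - j) = 2 - a j := by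
      unfold dig
      rw [dif_neg (by omega), if_neg (by omega), dif_pos (by omega)]
      congr 3
      ext
      simp only
      omega
    rw [e1, e2]
  · unfold dig
    simp

lemma digits_val (n : ℕ) (a : Fin n → Fin 3) (h : ∀ h0 : 0 < n, a ⟨0, h0⟩ ≠ 2) :
    Nat.digits 3 (val n a) = List.ofFn (fun i : Fin (2 * n + 1) => dig n a i) := by
  rw [val_eq_ofDigits]
  apply Nat.digits_ofDigits 3 (by norm_num)
  · intro l hl
    rw [List.mem_ofFn] at hl
    obtain ⟨i, rfl⟩ := hl
    exact dig_lt n a i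
  · intro hne
    rw [List.getLast_eq_getElem, List.getElem_ofFn]
    simp only [List.length_ofFn]
    have h2 : 2 * n + 1 - 1 = 2 * n := by omega
    rw [h2]
    unfold dig
    rcases Nat.eq_zero_or_pos n with h0 | h0
    · subst h0; simp
    · rw [dif_neg (by omega), if_neg (by omega), dif_pos (by omega)]
      have h3 := h h0
      have h4 : (⟨2 * n - 2 * n, by omega⟩ : Fin n) = ⟨0, h0⟩ := by
        ext; simp
      rw [h4]
      have h5 := (a ⟨0, h0⟩).2
      have h6 : (a ⟨0, h0⟩ : ℕ) ≠ 2 := by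
        intro h7; apply h3; ext; exact h7
      omega

lemma val_injOn (n : ℕ) : Set.InjOn (val n) {a | ∀ h0 : 0 < n, a ⟨0, h0⟩ ≠ 2} := by
  intro a ha b hb hab
  have h1 := digits_val n a ha
  have h2 := digits_val n b hb
  rw [hab, h2] at h1
  have h3 := List.ofFn_injective h1
  ext j
  have h4 := congrFun h3 ⟨j, by omega⟩
  simp only at h4
  unfold dig at h4
  rw [dif_pos j.2, dif_pos j.2] at h4
  exact h4.symm

lemma val_isAntipal (n : ℕ) (a : Fin n → Fin 3) (h : ∀ h0 : 0 < n, a ⟨0, h0⟩ ≠ 2) :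
    IsAntipal (val n a) := by
  unfold IsAntipal
  rw [digits_val n a h]
  apply List.ext_getElem
  · simp
  · intro i h1 h2
    rw [List.getElem_reverse, List.getElem_map, List.getElem_ofFn, List.getElem_ofFn]
    simp only [List.length_ofFn]
    simp only [List.length_reverse, List.length_ofFn] at h1
    unfold dig
    rcases lt_trichotomy i n with h3 | h3 | h3
    · rw [dif_neg (by omega), if_neg (by omega), dif_pos (by omega), dif_pos h3]
      congr 3
      ext
      simp only
      omega
    · subst h3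
      rw [dif_neg (by omega), if_pos (by omega), dif_neg (by omega), if_pos rfl]
    · rw [dif_pos (by omega), dif_neg (by omega), if_neg (by omega), dif_pos (by omega)]
      have h4 : (⟨2 * n + 1 - 1 - i, by omega⟩ : Fin n) = ⟨2 * n - i, by omega⟩ := by
        ext; simp only; omega
      rw [h4]
      have := (a ⟨2 * n - i, by omega⟩).2
      omega

lemma val_lt (n : ℕ) (a : Fin n → Fin 3) : val n a < 3 ^ (2 * n + 1) := by
  rw [val_eq_ofDigits]
  have := Nat.ofDigits_lt_base_pow_length (b := 3)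
    (l := List.ofFn (fun i : Fin (2 * n + 1) => dig n a i)) (by norm_num) (by
      intro x hx
      rw [List.mem_ofFn] at hx
      obtain ⟨i, rfl⟩ := hx
      exact dig_lt n a i)
  simpa using this

lemma val_ge (n : ℕ) (a : Fin n → Fin 3) (h : ∀ h0 : 0 < n, a ⟨0, h0⟩ ≠ 2) :
    3 ^ (2 * n) ≤ val n a := by
  have h1 := digits_val n a h
  by_contra hcon
  push Not at hcon
  have h2 := (Nat.digits_length_le_iff (b := 3) (k := 2 * n) (by norm_num) (val n a)).mpr hcon
  rw [h1, List.length_ofFn] at h2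
  omega

/-- The antipalindromic numbers with exactly `2n+1` digits in base `3`. -/
noncomputable def antipals (n : ℕ) : Finset ℕ := by
  classical
  exact (Finset.Ico (3 ^ (2 * n)) (3 ^ (2 * n + 1))).filter IsAntipal

lemma mem_antipals {n m : ℕ} : m ∈ antipals n ↔
    (3 ^ (2 * n) ≤ m ∧ m < 3 ^ (2 * n + 1)) ∧ IsAntipal m := by
  classical
  unfold antipals
  simp [Finset.mem_filter, Finset.mem_Ico]

/-- There are at least `3^(n-1)` antipalindromic numbers with `2n+1` digits. -/
lemma card_antipals_ge (n : ℕ) (hn : 1 ≤ n) : 3 ^ (n - 1) ≤ (antipals n).card := by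
  classical
  obtain ⟨k, rfl⟩ : ∃ k, n = k + 1 := ⟨n - 1, by omega⟩
  let f : (Fin k → Fin 3) → ℕ := fun b => val (k + 1) (Fin.cons 1 b)
  have hgood : ∀ b : Fin k → Fin 3, ∀ h0 : 0 < k + 1,
      (Fin.cons 1 b : Fin (k + 1) → Fin 3) ⟨0, h0⟩ ≠ 2 := by
    intro b h0
    have : (⟨0, h0⟩ : Fin (k + 1)) = 0 := rfl
    rw [this, Fin.cons_zero]
    decide
  have hinj : Function.Injective f := by
    intro b c hbc
    have h1 := val_injOn (k + 1) (hgood b) (hgood c) hbc
    exact Fin.cons_right_injective _ h1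
  have h2 : (Finset.univ.image f) ⊆ antipals (k + 1) := by
    intro m hm
    obtain ⟨b, -, rfl⟩ := Finset.mem_image.mp hm
    exact mem_antipals.mpr ⟨⟨val_ge _ _ (hgood b), val_lt _ _⟩, val_isAntipal _ _ (hgood b)⟩
  have h3 := Finset.card_le_card h2
  rw [Finset.card_image_of_injective _ hinj, Finset.card_univ, Fintype.card_fun] at h3
  simpa using h3

end Pool.Agent.Lib.MP_f75418_nt
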