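import Mathlib
import Pool.Agent.Lib.Sieve.Selberg
import Pool.Agent.Lib.Sieve.Lower
import Pool.Agent.Lib.MP_f75418_nt.Digits

/-!
# The Selberg sieve for antipalindromic numbers in base 3
-/

open Finset ArithmeticFunction

namespace Pool.Agent.Lib.MP_f75418_nt

open Pool.Agent.Lib.Sieve

/-- The density `1/d`. -/
noncomputable def oneNu : ArithmeticFunction ℝ :=
  ArithmeticFunction.prodPrimeFactors (fun p => (1 : ℝ) / p)

theorem oneNu_prime {p : ℕ} (hp : p.Prime) : oneNu p = 1 / p := by
  unfold oneNu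
  rw [ArithmeticFunction.prodPrimeFactors_apply hp.ne_zero, hp.primeFactors, Finset.prod_singleton]

theorem oneNu_squarefree {d : ℕ} (hd : Squarefree d) : oneNu d = 1 / d := by
  unfold oneNu
  rw [ArithmeticFunction.prodPrimeFactors_apply hd.ne_zero]
  have h : (d : ℝ) = ∏ p ∈ d.primeFactors, (p : ℝ) := by
    conv_lhs => rw [← Nat.prod_primeFactors_of_squarefree hd]
    push_cast
    rfl
  rw [h, Finset.prod_div_distrib]
  simp

/-- The sieve. -/
noncomputable def apSieve (n Z : ℕ) : BoundingSieve where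
  support := (Finset.univ : Finset (Fin n → Fin 3)).image (val n)
  prodPrimes := ∏ p ∈ (Finset.Icc 5 Z).filter Nat.Prime, p
  prodPrimes_squarefree := by
    apply Finset.squarefree_prod_of_pairwise_isCoprime
    · intro p hp q hq hpq
      have hp' := (Finset.mem_filter.mp (Finset.mem_coe.mp hp)).2
      have hq' := (Finset.mem_filter.mp (Finset.mem_coe.mp hq)).2
      exact Nat.coprime_iff_isRelPrime.mp ((Nat.coprime_primes hp' hq').mpr hpq)
    · intro p hp
      exact (Finset.mem_filter.mp hp).2.prime.squarefree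
  weights := fun m => (((Finset.univ : Finset (Fin n → Fin 3)).filter
    (fun a => val n a = m)).card : ℝ)
  weights_nonneg := fun _ => Nat.cast_nonneg _
  totalMass := 3 ^ n
  nu := oneNu
  nu_mult := by
    unfold oneNu
    exact ArithmeticFunction.IsMultiplicative.prodPrimeFactors _
  nu_pos_of_prime := by
    intro p hp _
    rw [oneNu_prime hp]
    have := hp.pos
    positivity
  nu_lt_one_of_prime := by
    intro p hp _
    rw [oneNu_prime hp]
    have hp0 : (0 : ℝ) < p := by exact_mod_cast hp.pos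
    rw [div_lt_one hp0]
    exact_mod_cast hp.one_lt

theorem dvd_P {n Z p : ℕ} (hp : p.Prime) (h5 : 5 ≤ p) (hpZ : p ≤ Z) :
    p ∣ (apSieve n Z).prodPrimes := by
  have : p ∣ ∏ p ∈ (Finset.Icc 5 Z).filter Nat.Prime, p :=
    Finset.dvd_prod_of_mem (fun p => p)
      (Finset.mem_filter.mpr ⟨Finset.mem_Icc.mpr ⟨h5, hpZ⟩, hp⟩)
  exact this

theorem prime_dvd_P {n Z p : ℕ} (hp : p.Prime) (h : p ∣ (apSieve n Z).prodPrimes) :
    5 ≤ p ∧ p ≤ Z := by
  have h' : p ∣ ∏ p ∈ (Finset.Icc 5 Z).filter Nat.Prime, p := h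
  obtain ⟨q, hq, hpq⟩ := (Prime.dvd_finsetProd_iff hp.prime _).mp h'
  have hq' := Finset.mem_filter.mp hq
  have : p = q := (Nat.prime_dvd_prime_iff_eq hp hq'.2).mp hpq
  rw [this]
  exact Finset.mem_Icc.mp hq'.1

theorem coprime_six_of_dvd_P {n Z d : ℕ} (hd : d ∣ (apSieve n Z).prodPrimes) :
    Nat.Coprime d 6 := by
  have h2 : ¬ 2 ∣ d := fun h => by
    have := prime_dvd_P (n := n) (Z := Z) Nat.prime_two (h.trans hd)
    omega
  have h3 : ¬ 3 ∣ d := fun h => by
    have := prime_dvd_P (n := n) (Z := Z) Nat.prime_three (h.trans hd)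
    omega
  have c2 : Nat.Coprime d 2 := ((Nat.Prime.coprime_iff_not_dvd Nat.prime_two).mpr h2).symm
  have c3 : Nat.Coprime d 3 := ((Nat.Prime.coprime_iff_not_dvd Nat.prime_three).mpr h3).symm
  exact Nat.Coprime.mul_right c2 c3

theorem sum_fiber (n : ℕ) (P : ℕ → Prop) [DecidablePred P] :
    ∑ m ∈ (Finset.univ : Finset (Fin n → Fin 3)).image (val n),
      (if P m then (((Finset.univ : Finset (Fin n → Fin 3)).filter
        (fun a => val n a = m)).card : ℝ) else 0) =
    (((Finset.univ : Finset (Fin n → Fin 3)).filter (fun a => P (val n a))).card : ℝ) := by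
  classical
  have h1 : ((Finset.univ : Finset (Fin n → Fin 3)).filter (fun a => P (val n a))).card =
      ∑ m ∈ (Finset.univ : Finset (Fin n → Fin 3)).image (val n),
        (((Finset.univ : Finset (Fin n → Fin 3)).filter (fun a => P (val n a))).filter
          (fun a => val n a = m)).card := by
    apply Finset.card_eq_sum_card_fiberwise
    intro a _
    exact Finset.mem_coe.mpr (Finset.mem_image_of_mem _ (Finset.mem_univ a))
  rw [h1]
  push_cast
  refine Finset.sum_congr rfl fun m _ => ?_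
  split_ifs with h
  · congr 2
    ext a
    simp only [Finset.mem_filter, Finset.mem_univ, true_and]
    constructor
    · intro h2; exact ⟨by rw [h2]; exact h, h2⟩
    · intro h2; exact h2.2
  · have : (((Finset.univ : Finset (Fin n → Fin 3)).filter (fun a => P (val n a))).filter
          (fun a => val n a = m)) = ∅ := by
      ext a
      simp only [Finset.mem_filter, Finset.mem_univ, true_and, Finset.notMem_empty, iff_false,
        not_and]
      intro h2 h3
      rw [h3] at h2
      exact h h2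
    rw [this]; simp

theorem siftedSum_ap (n Z : ℕ) : (apSieve n Z).siftedSum =
    (((Finset.univ : Finset (Fin n → Fin 3)).filter
      (fun a => (apSieve n Z).prodPrimes.Coprime (val n a))).card : ℝ) := by
  unfold BoundingSieve.siftedSum
  exact sum_fiber n (fun m => (apSieve n Z).prodPrimes.Coprime m)

theorem multSum_ap (n Z d : ℕ) : (apSieve n Z).multSum d =
    (((Finset.univ : Finset (Fin n → Fin 3)).filter (fun a => d ∣ val n a)).card : ℝ) := by
  unfold BoundingSieve.multSum
  exact sum_fiber n (fun m => d ∣ m)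

theorem abs_rem_ap_le (n Z : ℕ) {d : ℕ} (hd : d ∣ (apSieve n Z).prodPrimes) :
    |(apSieve n Z).rem d| ≤ 3 ^ n * (1 - 1 / (6 * (d : ℝ) ^ 2)) ^ (n / 2) := by
  have hsq : Squarefree d := (apSieve n Z).prodPrimes_squarefree.squarefree_of_dvd hd
  unfold BoundingSieve.rem
  rw [multSum_ap]
  change |_ - oneNu d * (3 : ℝ) ^ n| ≤ _
  rw [oneNu_squarefree hsq]
  have h := equidist (n := n) (Nat.one_le_iff_ne_zero.mpr hsq.ne_zero) (coprime_six_of_dvd_P hd)
  have e : (1 : ℝ) / d * 3 ^ n = 3 ^ n / d := by ring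
  rw [e]
  exact h

/-- Lower bound for the Selberg sum. -/
theorem selS_ap_ge (n K : ℕ) : (1 / 6 : ℝ) * Real.log (K + 1) ≤ selS (apSieve n (6 * K)) (6 * K) := by
  classical
  set s := apSieve n (6 * K) with hs
  set Z := 6 * K with hZ
  set f : ℕ → ℝ := fun m => 1 / (m : ℝ) with hf
  have hf0 : ∀ m, 0 ≤ f m := fun m => by positivity
  have hf1 : f 1 ≤ 1 := by simp [hf]
  have hmul : ∀ m k, f (m * k) = f m * f k := fun m k => by
    simp only [hf]; push_cast; rw [div_mul_div_comm, one_mul]
  -- numbers congruent to 1 modulo 6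
  have h1 : (1 / 6 : ℝ) * Real.log (K + 1) ≤
      ∑ m ∈ (Finset.Icc 1 Z).filter (fun m => Nat.Coprime m 6), f m := by
    have h2 : ∑ i ∈ Finset.range K, f (6 * i + 1) ≤
        ∑ m ∈ (Finset.Icc 1 Z).filter (fun m => Nat.Coprime m 6), f m := by
      rw [← Finset.sum_image (s := Finset.range K) (g := fun i => 6 * i + 1) (f := f)
        (fun x _ y _ h => by simpa using h)]
      apply Finset.sum_le_sum_of_subset_of_nonneg
      · intro m hm
        obtain ⟨i, hi, rfl⟩ := Finset.mem_image.mp hm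
        have hi' := Finset.mem_range.mp hi
        rw [Finset.mem_filter, Finset.mem_Icc]
        refine ⟨by omega, ?_⟩
        rw [Nat.coprime_iff_gcd_eq_one]
        have : Nat.gcd (6 * i + 1) 6 = Nat.gcd 1 6 := by
          rw [Nat.add_comm]; simp
        rw [this]
        norm_num
      · intro m _ _; exact hf0 m
    refine le_trans ?_ h2
    have hharm : Real.log ((K : ℝ) + 1) ≤ ∑ w ∈ Finset.Icc 1 K, (1 : ℝ) / w := by
      have h := log_add_one_le_harmonic K
      rw [harmonic_eq_sum_Icc] at h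
      push_cast at h
      simpa [one_div] using h
    calc (1 / 6 : ℝ) * Real.log (K + 1) ≤ (1 / 6) * ∑ w ∈ Finset.Icc 1 K, (1 : ℝ) / w := by gcongr
      _ = (1 / 6) * ∑ i ∈ Finset.range K, (1 : ℝ) / ((i + 1 : ℕ) : ℝ) := by
          congr 1
          rw [Finset.range_eq_Ico, Finset.sum_Ico_add' (fun w : ℕ => (1 : ℝ) / (w : ℝ)) 0 K 1]
          rfl
      _ ≤ ∑ i ∈ Finset.range K, f (6 * i + 1) := by
          rw [Finset.mul_sum]
          refine Finset.sum_le_sum fun i _ => ?_
          simp only [hf]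
          push_cast
          rw [div_mul_div_comm, one_mul]
          apply one_div_le_one_div_of_le (by positivity)
          have : (0 : ℝ) ≤ i := Nat.cast_nonneg i
          linarith
  refine h1.trans ?_
  -- comparison with the Selberg sum
  unfold selS
  set P := s.prodPrimes with hPdef
  have hPsq : Squarefree P := s.prodPrimes_squarefree
  have hP0 : P ≠ 0 := hPsq.ne_zero
  have hpr : ∀ m, Nat.Coprime m 6 → ∀ p ∈ m.primeFactors, 5 ≤ p := by
    intro m hm p hp
    have hpp := Nat.prime_of_mem_primeFactors hp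
    have hpm := Nat.dvd_of_mem_primeFactors hp
    have h2 : p ≠ 2 := by
      rintro rfl
      have := Nat.Coprime.coprime_dvd_left hpm hm
      norm_num at this
    have h3 : p ≠ 3 := by
      rintro rfl
      have := Nat.Coprime.coprime_dvd_left hpm hm
      norm_num at this
    have h4 : p ≠ 4 := by
      rintro rfl
      norm_num at hpp
    have := hpp.two_le
    omega
  have hmaps : ∀ m ∈ (Finset.Icc 1 Z).filter (fun m => Nat.Coprime m 6),
      (∏ p ∈ m.primeFactors, p) ∈ P.divisors.filter (fun l => l ≤ Z) := by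
    intro m hm
    have hm' := Finset.mem_filter.mp hm
    have hm1 := (Finset.mem_Icc.mp hm'.1).1
    have hm2 := (Finset.mem_Icc.mp hm'.1).2
    rw [Finset.mem_filter, Nat.mem_divisors]
    refine ⟨⟨?_, hP0⟩, (Nat.le_of_dvd hm1 (Nat.prod_primeFactors_dvd m)).trans hm2⟩
    apply Finset.prod_primes_dvd
    · intro p hp
      exact (Nat.prime_of_mem_primeFactors hp).prime
    · intro p hp
      exact dvd_P (Nat.prime_of_mem_primeFactors hp) (hpr m hm'.2 p hp)
        ((Nat.le_of_mem_primeFactors hp).trans hm2)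
  rw [← Finset.sum_fiberwise_of_maps_to hmaps]
  refine Finset.sum_le_sum fun l hl => ?_
  have hl' := Finset.mem_filter.mp hl
  have hlP : l ∣ P := Nat.dvd_of_mem_divisors hl'.1
  have hlsq : Squarefree l := hPsq.squarefree_of_dvd hlP
  rw [selbergTerms_eq_prod s hlP]
  have h2 : ∑ m ∈ ((Finset.Icc 1 Z).filter (fun m => Nat.Coprime m 6)) with
        (∏ p ∈ m.primeFactors, p) = l, f m
      ≤ ∑ m ∈ Finset.Icc 1 Z with m.primeFactors = l.primeFactors, f m := by
    apply Finset.sum_le_sum_of_subset_of_nonneg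
    · intro m hm
      have hm := Finset.mem_filter.mp hm
      refine Finset.mem_filter.mpr ⟨(Finset.mem_filter.mp hm.1).1, ?_⟩
      rw [← hm.2, Nat.primeFactors_prod]
      intro p hp; exact Nat.prime_of_mem_primeFactors hp
    · intro _ _ _; exact hf0 _
  refine h2.trans ?_
  have hpd : ∀ p ∈ l.primeFactors, p.Prime ∧ p ∣ P := fun p hp =>
    ⟨Nat.prime_of_mem_primeFactors hp, (Nat.dvd_of_mem_primeFactors hp).trans hlP⟩
  have hfnu : ∀ p ∈ l.primeFactors, f p = s.nu p := by
    intro p hp
    change f p = oneNu p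
    rw [oneNu_prime (hpd p hp).1]
  refine (sum_primeFactors_eq_le f hf0 hf1 hmul Z l.primeFactors (fun p hp => (hpd p hp).1) ?_).trans ?_
  · intro p hp
    rw [hfnu p hp]
    exact s.nu_lt_one_of_prime p (hpd p hp).1 (hpd p hp).2
  · apply le_of_eq
    refine Finset.prod_congr rfl fun p hp => ?_
    rw [hfnu p hp]

/-- The number of antipalindromic primes with `2n+1` digits, sieve bound with parameter `K`. -/
theorem primes_le (n K : ℕ) (hK : 1 ≤ K) (hKn : 6 * K < 3 ^ (2 * n)) :
    (((antipals n).filter Nat.Prime).card : ℝ) ≤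
      6 * 3 ^ n / Real.log (K + 1) +
      (6 * K : ℝ) ^ 2 * (3 ^ n * (1 - 1 / (6 * ((6 * K : ℝ) ^ 2) ^ 2)) ^ (n / 2)) := by
  classical
  set s := apSieve n (6 * K) with hs
  have hZ : 1 ≤ 6 * K := by omega
  have hKr : (1 : ℝ) ≤ K := by exact_mod_cast hK
  have hsel := selberg_bound s (6 * K) hZ
  have h1 : (((antipals n).filter Nat.Prime).card : ℝ) ≤ s.siftedSum := by
    rw [siftedSum_ap]
    have h2 : ((antipals n).filter Nat.Prime) ⊆
        ((Finset.univ : Finset (Fin n → Fin 3)).filter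
          (fun a => (apSieve n (6 * K)).prodPrimes.Coprime (val n a))).image (val n) := by
      intro p hp
      have hp' := Finset.mem_filter.mp hp
      have hp2 := mem_antipals.mp hp'.1
      obtain ⟨a, ha⟩ := exists_val hp2.1.1 hp2.1.2 hp2.2
      rw [Finset.mem_image]
      refine ⟨a, ?_, ha⟩
      rw [Finset.mem_filter]
      refine ⟨Finset.mem_univ _, ?_⟩
      rw [ha]
      refine ((Nat.Prime.coprime_iff_not_dvd hp'.2).mpr fun h => ?_).symm
      have := (prime_dvd_P (n := n) (Z := 6 * K) hp'.2 h).2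
      omega
    exact_mod_cast (Finset.card_le_card h2).trans Finset.card_image_le
  refine h1.trans (hsel.trans ?_)
  have hlog : 0 < Real.log ((K : ℝ) + 1) := Real.log_pos (by linarith)
  have hSge := selS_ap_ge n K
  rw [← hs] at hSge
  refine add_le_add ?_ ?_
  · change (3 : ℝ) ^ n / selS s (6 * K) ≤ _
    rw [div_le_div_iff₀ (by linarith) hlog]
    have : (3 : ℝ) ^ n * Real.log (K + 1) = 6 * 3 ^ n * ((1 / 6) * Real.log (K + 1)) := by ring
    rw [this]
    gcongr
  · set E : ℝ := 3 ^ n * (1 - 1 / (6 * ((6 * K : ℝ) ^ 2) ^ 2)) ^ (n / 2) with hE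
    have hE0 : 0 ≤ 1 - 1 / (6 * ((6 * K : ℝ) ^ 2) ^ 2) := by
      rw [sub_nonneg, div_le_one (by positivity)]
      have : (1 : ℝ) ≤ (6 * K : ℝ) ^ 2 := by nlinarith
      nlinarith
    have hterm : ∀ d1 ∈ s.prodPrimes.divisors.filter (fun d => d ≤ 6 * K),
        ∀ d2 ∈ s.prodPrimes.divisors.filter (fun d => d ≤ 6 * K),
        |s.rem (d1.lcm d2)| ≤ E := by
      intro d1 h1 d2 h2
      have h1' := Finset.mem_filter.mp h1
      have h2' := Finset.mem_filter.mp h2
      have hd1 := Nat.dvd_of_mem_divisors h1'.1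
      have hd2 := Nat.dvd_of_mem_divisors h2'.1
      have h10 := Nat.pos_of_mem_divisors h1'.1
      have h20 := Nat.pos_of_mem_divisors h2'.1
      have hl0 : 0 < d1.lcm d2 := Nat.lcm_pos h10 h20
      refine (abs_rem_ap_le n (6 * K) (Nat.lcm_dvd hd1 hd2)).trans ?_
      have hl : d1.lcm d2 ≤ (6 * K) ^ 2 := by
        calc d1.lcm d2 ≤ d1 * d2 := Nat.le_of_dvd (Nat.mul_pos h10 h20) (Nat.lcm_dvd_mul d1 d2)
          _ ≤ (6 * K) * (6 * K) := Nat.mul_le_mul h1'.2 h2'.2
          _ = (6 * K) ^ 2 := by ring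
      have hlr : ((d1.lcm d2 : ℕ) : ℝ) ≤ (6 * K : ℝ) ^ 2 := by exact_mod_cast hl
      have hl0r : (1 : ℝ) ≤ ((d1.lcm d2 : ℕ) : ℝ) := by exact_mod_cast hl0
      rw [hE]
      refine mul_le_mul_of_nonneg_left ?_ (by positivity)
      apply pow_le_pow_left₀
      · rw [sub_nonneg, div_le_one (by positivity)]
        nlinarith
      · apply sub_le_sub_left
        apply one_div_le_one_div_of_le (by positivity)
        gcongr
    have hcard : ((s.prodPrimes.divisors.filter (fun d => d ≤ 6 * K)).card : ℝ) ≤ 6 * K := by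
      have : (s.prodPrimes.divisors.filter (fun d => d ≤ 6 * K)) ⊆ Finset.Icc 1 (6 * K) := by
        intro d hd
        have hd' := Finset.mem_filter.mp hd
        exact Finset.mem_Icc.mpr ⟨Nat.pos_of_mem_divisors hd'.1, hd'.2⟩
      have h3 := Finset.card_le_card this
      rw [Nat.card_Icc, Nat.add_sub_cancel] at h3
      exact_mod_cast h3
    calc ∑ d1 ∈ s.prodPrimes.divisors with d1 ≤ 6 * K, ∑ d2 ∈ s.prodPrimes.divisors with d2 ≤ 6 * K,
          |s.rem (d1.lcm d2)|
        ≤ ∑ d1 ∈ s.prodPrimes.divisors with d1 ≤ 6 * K, ∑ d2 ∈ s.prodPrimes.divisors with d2 ≤ 6 * K,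
          E := Finset.sum_le_sum fun d1 h1 => Finset.sum_le_sum fun d2 h2 => hterm d1 h1 d2 h2
      _ = ((s.prodPrimes.divisors.filter (fun d => d ≤ 6 * K)).card : ℝ) *
          (((s.prodPrimes.divisors.filter (fun d => d ≤ 6 * K)).card : ℝ) * E) := by
          rw [Finset.sum_const, Finset.sum_const, nsmul_eq_mul, nsmul_eq_mul]
      _ ≤ (6 * K) * ((6 * K) * E) := by
          have hE1 : 0 ≤ E := by positivity
          gcongr
      _ = (6 * K : ℝ) ^ 2 * E := by ring

end Pool.Agent.Lib.MP_f75418_nt
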